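import Pool.Agent.GLE.StmtsC

/-! Squad GLE, row ARA: area of a lemniscate, counted with multiplicity. -/

set_option autoImplicit false

namespace Pool.Agent.GLE.H62

open Polynomial MeasureTheory Filter Topology Pool.Agent.GLE

/-- the primitive of `2 max 0 t` -/
noncomputable def Gp (x : ℝ) : ℝ := ∫ t in (0 : ℝ)..x, 2 * max 0 t

theorem gp_hd (x : ℝ) : HasDerivAt Gp (2 * max 0 x) x := by
  have hc : Continuous fun t : ℝ => 2 * max 0 t := by fun_prop
  exact (hc.integral_hasStrictDerivAt 0 x).hasDerivAt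

theorem gp_nonpos {x : ℝ} (hx : x ≤ 0) : Gp x = 0 := by
  unfold Gp
  rw [intervalIntegral.integral_symm, neg_eq_zero]
  have h : ∫ t in x..(0 : ℝ), 2 * max 0 t = ∫ t in x..(0 : ℝ), (0 : ℝ) := by
    refine intervalIntegral.integral_congr fun t ht => ?_
    rw [Set.uIcc_of_le hx] at ht
    show 2 * max 0 t = 0
    rw [max_eq_left ht.2, mul_zero]
  rw [h, intervalIntegral.integral_zero]

theorem gp_pos {x : ℝ} (hx : 0 ≤ x) : Gp x = x ^ 2 := by
  unfold Gp
  have h : ∫ t in (0 : ℝ)..x, 2 * max 0 t = ∫ t in (0 : ℝ)..x, 2 * t := by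
    refine intervalIntegral.integral_congr fun t ht => ?_
    rw [Set.uIcc_of_le hx] at ht
    show 2 * max 0 t = 2 * t
    rw [max_eq_right ht.1]
  rw [h, intervalIntegral.integral_const_mul, integral_id]
  ring

/-- the cut off -/
noncomputable def et (t : ℝ) : ℝ := Gp (512 - t) / 512

/-- minus its derivative -/
noncomputable def ed (t : ℝ) : ℝ := 2 * max 0 (512 - t) / 512

theorem et_hd (t : ℝ) : HasDerivAt et (-ed t) t := by
  have h1 : HasDerivAt (fun t : ℝ => 512 - t) (-1) t := by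
    simpa using (hasDerivAt_id t).const_sub 512
  have h2 := ((gp_hd (512 - t)).comp t h1).div_const 512
  refine h2.congr_deriv ?_
  unfold ed
  ring

theorem ed_cont : Continuous ed := by
  unfold ed
  fun_prop

theorem et_cd : ContDiff ℝ 1 et := by
  rw [contDiff_one_iff_deriv]
  refine ⟨fun t => (et_hd t).differentiableAt, ?_⟩
  have : deriv et = fun t => -ed t := funext fun t => (et_hd t).deriv
  rw [this]
  exact ed_cont.neg

theorem ed_nonneg (t : ℝ) : 0 ≤ ed t := by
  unfold ed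
  have := le_max_left 0 (512 - t)
  positivity

theorem ed_ge {t : ℝ} (ht : t ≤ 256) : 1 ≤ ed t := by
  unfold ed
  rw [max_eq_right (by linarith)]
  linarith

theorem et_zero : et 0 = 512 := by
  unfold et
  rw [gp_pos (by norm_num)]
  norm_num

theorem et_big {t : ℝ} (ht : 512 ≤ t) : et t = 0 := by
  unfold et
  rw [gp_nonpos (by linarith), zero_div]

section

variable (p : ℂ[X])

theorem lem_compact (hp : 1 ≤ p.natDegree) (R : ℝ) : IsCompact {z : ℂ | ‖p.eval z‖ ≤ R} := by
  have hd : 0 < p.degree := natDegree_pos_iff_degree_pos.1 hp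
  have h1 : Tendsto (fun z : ℂ => ‖p.eval z‖) (cocompact ℂ) atTop :=
    p.tendsto_norm_atTop hd tendsto_norm_cocompact_atTop
  have h2 := h1.eventually_gt_atTop R
  obtain ⟨K, hK, hsub⟩ := mem_cocompact.1 h2
  refine hK.of_isClosed_subset (isClosed_le (by fun_prop) continuous_const) ?_
  intro z hz
  by_contra hzK
  have h3 : R < ‖p.eval z‖ := hsub hzK
  exact absurd hz (not_le.2 h3)

/-- the test function -/
noncomputable def phi (z : ℂ) : ℝ := et (‖p.eval z‖ ^ 2)

theorem phi_cd : ContDiff ℝ 1 (phi p) := by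
  have h1 : ContDiff ℝ 1 fun z : ℂ => p.eval z := by
    have h0 : ContDiff ℂ 1 fun z : ℂ => p.eval z := by
      simpa [Polynomial.aeval_def] using (Polynomial.contDiff_aeval (𝕜 := ℂ) (R := ℂ) p 1)
    exact h0.restrict_scalars ℝ
  exact et_cd.comp (h1.norm_sq ℝ)

theorem phi_cs (hp : 1 ≤ p.natDegree) : HasCompactSupport (phi p) := by
  refine HasCompactSupport.intro (lem_compact p hp 23) fun z hz => ?_
  have h1 : 23 < ‖p.eval z‖ := not_le.1 hz
  unfold phi
  exact et_big (by nlinarith)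

theorem phi_fd (z w : ℂ) : fderiv ℝ (phi p) z w =
    -ed (‖p.eval z‖ ^ 2) * (2 * ((starRingEnd ℂ) (p.eval z) * (p.derivative.eval z * w)).re) := by
  have h1 : HasFDerivAt (fun z : ℂ => p.eval z)
      ((ContinuousLinearMap.toSpanSingleton ℂ (p.derivative.eval z)).restrictScalars ℝ) z :=
    ((p.hasDerivAt z).hasFDerivAt).restrictScalars ℝ
  have h2 := h1.norm_sq
  have h3 := (et_hd (‖p.eval z‖ ^ 2)).comp_hasFDerivAt z h2
  have h4 : HasFDerivAt (phi p) ((-ed (‖p.eval z‖ ^ 2)) •
      (2 • (innerSL ℝ (p.eval z)).comp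
        ((ContinuousLinearMap.toSpanSingleton ℂ (p.derivative.eval z)).restrictScalars ℝ))) z := h3
  rw [h4.fderiv]
  simp only [smul_apply, ContinuousLinearMap.comp_apply,
    ContinuousLinearMap.coe_restrictScalars', ContinuousLinearMap.toSpanSingleton_apply, smul_eq_mul,
    innerSL_apply_apply, Complex.inner, nsmul_eq_mul, Nat.cast_ofNat]
  rw [mul_comm w, mul_comm _ ((starRingEnd ℂ) (p.eval z))]

theorem phi_grad (z : ℂ) : grad (phi p) z =
    (-ed (‖p.eval z‖ ^ 2) : ℝ) * (2 * (p.eval z * (starRingEnd ℂ) (p.derivative.eval z))) := by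
  unfold grad
  rw [phi_fd, phi_fd]
  apply Complex.ext
  · simp [Complex.mul_re, Complex.mul_im]
  · simp [Complex.mul_re, Complex.mul_im]

theorem vg_conj (w : ℂ) : (starRingEnd ℂ) (Vg 0 w) = 1 / w := by
  unfold Vg
  by_cases hw : w = 0
  · rw [hw, norm_zero, if_pos le_rfl, map_zero, div_zero]
  · have h0 : ¬ ‖w‖ ≤ 0 := by
      rw [not_le]
      exact norm_pos_iff.2 hw
    rw [if_neg h0, map_div₀, Complex.conj_ofReal]
    have h1 : ((‖w‖ ^ 2 : ℝ) : ℂ) = w * (starRingEnd ℂ) w := by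
      rw [Complex.mul_conj, Complex.normSq_eq_norm_sq]
    rw [h1]
    have h2 : (starRingEnd ℂ) w ≠ 0 := by
      rw [Ne, map_eq_zero]
      exact hw
    field_simp

/-- summation over a multiset of points -/
theorem sum_rad (rad : RadStmt) (hp : 1 ≤ p.natDegree) (s : Multiset ℂ) :
    Integrable (fun z => ((s.map fun a => 1 / (z - a)).sum * grad (phi p) z).re) ∧
    ∫ z, ((s.map fun a => 1 / (z - a)).sum * grad (phi p) z).re =
      (s.map fun a => -(2 * Real.pi) * phi p a).sum := by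
  obtain ⟨-, -, -, h⟩ := rad (phi p) (phi_cd p) (phi_cs p hp)
  have h' : ∀ a : ℂ, Integrable (fun z => (1 / (z - a) * grad (phi p) z).re) ∧
      ∫ z, (1 / (z - a) * grad (phi p) z).re = -(2 * Real.pi) * phi p a := by
    intro a
    have h1 := h a 0 le_rfl
    simp only [vg_conj, Real.circleAverage_zero] at h1
    exact h1
  induction s using Multiset.induction_on with
  | empty =>
    simp
  | cons a s ih =>
    have h1 := h' a
    have e : ∀ z : ℂ, (((a ::ₘ s).map fun a => 1 / (z - a)).sum * grad (phi p) z).re =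
        (1 / (z - a) * grad (phi p) z).re + ((s.map fun a => 1 / (z - a)).sum * grad (phi p) z).re := by
      intro z
      rw [Multiset.map_cons, Multiset.sum_cons, add_mul, Complex.add_re]
    simp only [e]
    refine ⟨h1.1.add ih.1, ?_⟩
    rw [integral_add h1.1 ih.1, h1.2, ih.2, Multiset.map_cons, Multiset.sum_cons]

theorem key (rad : RadStmt) (hm : p.Monic) (hp : 1 ≤ p.natDegree) :
    Integrable (fun z : ℂ => 2 * ed (‖p.eval z‖ ^ 2) * ‖p.derivative.eval z‖ ^ 2) ∧
    ∫ z : ℂ, 2 * ed (‖p.eval z‖ ^ 2) * ‖p.derivative.eval z‖ ^ 2 =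
      1024 * Real.pi * p.natDegree := by
  have hp0 : p ≠ 0 := hm.ne_zero
  obtain ⟨h1, h2⟩ := sum_rad p rad hp p.roots
  have hae : (fun z => ((p.roots.map fun a => 1 / (z - a)).sum * grad (phi p) z).re) =ᵐ[volume]
      fun z : ℂ => -(2 * ed (‖p.eval z‖ ^ 2) * ‖p.derivative.eval z‖ ^ 2) := by
    have hfin : (↑(p.roots.toFinset) : Set ℂ).Finite := Finset.finite_toSet _
    have hz : volume (↑(p.roots.toFinset) : Set ℂ) = 0 := hfin.measure_zero _
    have hae0 : ∀ᵐ z : ℂ, z ∉ (↑(p.roots.toFinset) : Set ℂ) := by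
      exact measure_eq_zero_iff_ae_notMem.1 hz
    filter_upwards [hae0] with z hz
    have hz0 : p.eval z ≠ 0 := by
      intro h0
      apply hz
      rw [Finset.mem_coe, Multiset.mem_toFinset, mem_roots hp0]
      exact h0
    rw [← (IsAlgClosed.splits p).eval_derivative_div_eval_of_ne_zero hz0, phi_grad]
    have e1 : p.derivative.eval z / p.eval z * (((-ed (‖p.eval z‖ ^ 2) : ℝ) : ℂ) *
        (2 * (p.eval z * (starRingEnd ℂ) (p.derivative.eval z)))) =
        ((-(2 * ed (‖p.eval z‖ ^ 2) * ‖p.derivative.eval z‖ ^ 2) : ℝ) : ℂ) := by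
      have e2 : p.derivative.eval z * (starRingEnd ℂ) (p.derivative.eval z) =
          ((‖p.derivative.eval z‖ ^ 2 : ℝ) : ℂ) := by
        rw [Complex.mul_conj, Complex.normSq_eq_norm_sq]
      have e3 : p.derivative.eval z / p.eval z * (((-ed (‖p.eval z‖ ^ 2) : ℝ) : ℂ) *
          (2 * (p.eval z * (starRingEnd ℂ) (p.derivative.eval z)))) =
          ((-ed (‖p.eval z‖ ^ 2) : ℝ) : ℂ) * 2 *
            (p.derivative.eval z * (starRingEnd ℂ) (p.derivative.eval z)) := by
        field_simp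
      rw [e3, e2]
      push_cast
      ring
    rw [e1, Complex.ofReal_re]
  have h3 : Integrable (fun z : ℂ => -(2 * ed (‖p.eval z‖ ^ 2) * ‖p.derivative.eval z‖ ^ 2)) :=
    h1.congr hae
  have h4 : Integrable (fun z : ℂ => 2 * ed (‖p.eval z‖ ^ 2) * ‖p.derivative.eval z‖ ^ 2) := by
    have := h3.neg
    refine this.congr (Filter.Eventually.of_forall fun z => ?_)
    show - -(2 * ed (‖p.eval z‖ ^ 2) * ‖p.derivative.eval z‖ ^ 2) = _
    rw [neg_neg]
  refine ⟨h4, ?_⟩
  rw [integral_congr_ae hae, integral_neg] at h2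
  have h5 : (p.roots.map fun a => -(2 * Real.pi) * phi p a).sum =
      -(1024 * Real.pi * p.natDegree) := by
    have h6 : ∀ a ∈ p.roots, -(2 * Real.pi) * phi p a = -(1024 * Real.pi) := by
      intro a ha
      have h7 : p.eval a = 0 := (mem_roots hp0).1 ha
      unfold phi
      rw [h7, norm_zero, zero_pow two_ne_zero, et_zero]
      ring
    rw [Multiset.map_congr rfl h6, Multiset.map_const', Multiset.sum_replicate,
      IsAlgClosed.card_roots_eq_natDegree, nsmul_eq_mul]
    ring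
  rw [h5] at h2
  linarith

end

/-- row ARA -/
theorem ara (rad : RadStmt) : AraStmt := by
  intro p hm
  refine ⟨fun hp => lem_compact p hp 16, ?_⟩
  by_cases hp : 1 ≤ p.natDegree
  · obtain ⟨h1, h2⟩ := key p rad hm hp
    obtain ⟨S, hS⟩ : ∃ S : Set ℂ, S = {z : ℂ | ‖p.eval z‖ ≤ 16} := ⟨_, rfl⟩
    rw [← hS]
    have hSc : IsCompact S := by rw [hS]; exact lem_compact p hp 16
    have hc : Continuous fun z : ℂ => 2 * ‖p.derivative.eval z‖ ^ 2 := by fun_prop
    have h3 : ∫ z in S, 2 * ‖p.derivative.eval z‖ ^ 2 ≤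
        ∫ z in S, 2 * ed (‖p.eval z‖ ^ 2) * ‖p.derivative.eval z‖ ^ 2 := by
      refine setIntegral_mono_on (hc.continuousOn.integrableOn_compact hSc) h1.integrableOn
        hSc.measurableSet fun z hz => ?_
      have h4 : ‖p.eval z‖ ≤ 16 := by rw [hS] at hz; exact hz
      have h5 : ‖p.eval z‖ ^ 2 ≤ 256 := by nlinarith [norm_nonneg (p.eval z)]
      have h6 := ed_ge h5
      have h7 : 0 ≤ ‖p.derivative.eval z‖ ^ 2 := by positivity
      nlinarith
    have h4 : ∫ z in S, 2 * ed (‖p.eval z‖ ^ 2) * ‖p.derivative.eval z‖ ^ 2 ≤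
        ∫ z, 2 * ed (‖p.eval z‖ ^ 2) * ‖p.derivative.eval z‖ ^ 2 := by
      refine setIntegral_le_integral h1 (Filter.Eventually.of_forall fun z => ?_)
      have := ed_nonneg (‖p.eval z‖ ^ 2)
      show (0 : ℝ) ≤ 2 * ed (‖p.eval z‖ ^ 2) * ‖p.derivative.eval z‖ ^ 2
      positivity
    rw [h2] at h4
    rw [integral_const_mul] at h3
    linarith
  · have h0 : p.natDegree = 0 := by omega
    have h1 : p = 1 := by
      rw [hm.natDegree_eq_zero] at h0
      exact h0
    rw [h1]
    simp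

end Pool.Agent.GLE.H62
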